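import Pool.Agent.V1153.FB.Ana

/-!
# The conjecture of Green, Griffiths and Lang in families

`X` is the complement of the hypersurface `Q = 0` in the integral closed subvariety of projective
`n`-space over the complex numbers with the ideal `I` (projective if `Q = 1`), and
`g = (g_0 : ... : g_m)` is a rational map from `X` to projective `m`-space; its fibres are a family of
varieties. Theorem: the following are equivalent.
1. `X` is not covered by curves of the punctured line (rational curves if `Q = 1`) which are
   contained in the fibres of `g`;
2. (`FibFree`) for every `N` the points of `X` through which no curve of the punctured line of degree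
   at most `N` of the fibre passes are dense in `X`;
3. (`FibEntire`) for each `(s, r, e, d)` one proper closed subset of `X` contains all nonconstant
   entire curves of complexity at most `(s, r, e, d)` in all fibres of `g`;
4. (`FibDFin`) for each `(r, d)` one proper closed subset of `X` contains all nonconstant entire
   curves in all fibres of `g` whose homogeneous coordinates satisfy linear differential equations of
   order at most `r` with polynomial coefficients of degree at most `d`;
5. (`FibExp`) for each `(r, d)` one proper closed subset of `X` contains all nonconstant maps from
   affine spaces to the fibres of `g` whose homogeneous coordinates are sums of `r` products of a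
   polynomial of degree at most `d` and the exponential of an entire function.
They hold if the irreducible components of log general type of the fibres of `g` are dense in `X`
(`FibGeneral`), and if one proper closed subset of `X` contains all nonconstant entire curves in all
fibres of `g` (`FibGGL`).
-/

set_option autoImplicit false

namespace Pool.Agent.Results.MP_8d161d_ag.CurvesInFibres

open MvPolynomial Pool.Agent.V1153.FB

/-- **Entire curves in the fibres.** -/
theorem result (n m : ℕ) (I : Ideal (MvPolynomial (Fin (n + 1)) ℂ)) (hI : I.IsPrime)
    (Q : MvPolynomial (Fin (n + 1)) ℂ) (q : ℕ) (hQ : Q.IsHomogeneous q)
    (g : Fin (m + 1) → MvPolynomial (Fin (n + 1)) ℂ) (δ : ℕ) (hg : ∀ u, (g u).IsHomogeneous δ) :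
    List.TFAE [¬ FibRuled I Q g, FibFree I Q g, FibEntire I Q g, FibDFin I Q g, FibExp I Q g] ∧
      (FibGeneral I Q q g ∨ FibGGL I Q g → ¬ FibRuled I Q g) :=
  fib_ana hI hQ hg

end Pool.Agent.Results.MP_8d161d_ag.CurvesInFibres
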